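import Mathlib

set_option autoImplicit false

/-! # Lens shaped neighbourhoods of real intervals, and square roots -/

open Complex Topology Filter Metric Set

namespace Pool.Agent.T6.H50.LC

/-- The defining function of the lenses. -/
noncomputable def lf (τ j₁ j₂ : ℝ) (z : ℂ) : ℝ :=
  (z.re - j₁) * (z.re - j₂) + z.im ^ 2 - τ * |z.im| * (j₂ - j₁)

/-- The closed lens over the interval `[j₁, j₂]`: the points which see the interval at an angle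
whose cotangent is at most `τ`. -/
def LL (τ j₁ j₂ : ℝ) : Set ℂ := {z | lf τ j₁ j₂ z ≤ 0}

/-- The open lens. -/
def LO (τ j₁ j₂ : ℝ) : Set ℂ := {z | lf τ j₁ j₂ z < 0}

theorem continuous_lf (τ j₁ j₂ : ℝ) : Continuous (lf τ j₁ j₂) := by
  unfold lf
  have h1 := Complex.continuous_re
  have h2 := Complex.continuous_im
  fun_prop

theorem isOpen_LO (τ j₁ j₂ : ℝ) : IsOpen (LO τ j₁ j₂) :=
  isOpen_lt (continuous_lf τ j₁ j₂) continuous_const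

theorem isClosed_LL (τ j₁ j₂ : ℝ) : IsClosed (LL τ j₁ j₂) :=
  isClosed_le (continuous_lf τ j₁ j₂) continuous_const

theorem LO_subset_LL (τ j₁ j₂ : ℝ) : LO τ j₁ j₂ ⊆ LL τ j₁ j₂ := by
  intro z h
  have h1 : lf τ j₁ j₂ z < 0 := h
  exact h1.le

theorem norm_le_of_LL {τ j₁ j₂ M : ℝ} (hM1 : |j₁ + j₂| ≤ M) (hM2 : τ * (j₂ - j₁) ≤ M)
    (hM3 : |j₁ * j₂| ≤ M ^ 2) {z : ℂ} (hz : z ∈ LL τ j₁ j₂) : ‖z‖ ≤ 3 * M := by
  have hM : 0 ≤ M := (abs_nonneg _).trans hM1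
  have h1 : lf τ j₁ j₂ z ≤ 0 := hz
  unfold lf at h1
  have h2 : ‖z‖ ^ 2 = z.re ^ 2 + z.im ^ 2 := by
    rw [Complex.sq_norm, Complex.normSq_apply]; ring
  have h3 : |z.re| ≤ ‖z‖ := Complex.abs_re_le_norm z
  have h4 : |z.im| ≤ ‖z‖ := Complex.abs_im_le_norm z
  have h5 : (j₁ + j₂) * z.re ≤ M * ‖z‖ := by
    calc (j₁ + j₂) * z.re ≤ |(j₁ + j₂) * z.re| := le_abs_self _
      _ = |j₁ + j₂| * |z.re| := abs_mul _ _
      _ ≤ M * ‖z‖ := mul_le_mul hM1 h3 (abs_nonneg _) hM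
  have h6 : τ * |z.im| * (j₂ - j₁) ≤ M * ‖z‖ := by
    calc τ * |z.im| * (j₂ - j₁) = τ * (j₂ - j₁) * |z.im| := by ring
      _ ≤ M * |z.im| := mul_le_mul_of_nonneg_right hM2 (abs_nonneg _)
      _ ≤ M * ‖z‖ := mul_le_mul_of_nonneg_left h4 hM
  have h7 : -(j₁ * j₂) ≤ M ^ 2 := (neg_le_abs _).trans hM3
  by_contra hcon
  push Not at hcon
  nlinarith [norm_nonneg z]

theorem isCompact_LL (τ j₁ j₂ : ℝ) : IsCompact (LL τ j₁ j₂) := by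
  apply Metric.isCompact_of_isClosed_isBounded (isClosed_LL τ j₁ j₂)
  set M : ℝ := |j₁ + j₂| + |τ * (j₂ - j₁)| + |j₁ * j₂| + 1 with hM
  have h0 := abs_nonneg (j₁ + j₂)
  have h1 := abs_nonneg (τ * (j₂ - j₁))
  have h2 := abs_nonneg (j₁ * j₂)
  apply (isBounded_closedBall (x := (0:ℂ)) (r := 3 * M)).subset
  intro z hz
  rw [mem_closedBall_zero_iff]
  refine norm_le_of_LL (by rw [hM]; linarith) ?_ ?_ hz
  · have := le_abs_self (τ * (j₂ - j₁))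
    rw [hM]; linarith
  · have h3 : |j₁ * j₂| ≤ M := by rw [hM]; linarith
    have h4 : 1 ≤ M := by rw [hM]; linarith
    nlinarith

/-- The lens of the square root. -/
theorem sqrt_lens {τ c s₁ s₂ : ℝ} (hτ : 0 ≤ τ) (hs1 : 0 ≤ s₁) (hs : s₁ ≤ s₂) {ζ : ℂ}
    (hζ : 0 ≤ ζ.re) (hz : ζ ^ 2 + c ∈ LL τ (s₁ ^ 2 + c) (s₂ ^ 2 + c)) : ζ ∈ LL τ s₁ s₂ := by
  have h1 : lf τ (s₁ ^ 2 + c) (s₂ ^ 2 + c) (ζ ^ 2 + c) ≤ 0 := hz
  show lf τ s₁ s₂ ζ ≤ 0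
  unfold lf at h1 ⊢
  have hre : (ζ ^ 2 + (c : ℂ)).re = ζ.re ^ 2 - ζ.im ^ 2 + c := by
    simp [pow_two]
  have him : (ζ ^ 2 + (c : ℂ)).im = 2 * ζ.re * ζ.im := by
    simp [pow_two]; ring
  rw [hre, him, abs_mul, abs_mul, abs_two, abs_of_nonneg hζ] at h1
  set u := ζ.re with hu
  set v := |ζ.im| with hv
  have hv0 : 0 ≤ v := abs_nonneg _
  have hv2 : ζ.im ^ 2 = v ^ 2 := (sq_abs _).symm
  have him2 : (2 * u * ζ.im) ^ 2 = (2 * u * v) ^ 2 := by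
    rw [mul_pow, hv2, ← mul_pow]
  rw [him2, hv2] at h1
  rw [hv2]
  set N1 := (u - s₁) * (u - s₂) + v ^ 2 with hN1
  set N2 := (u + s₁) * (u + s₂) + v ^ 2 with hN2
  set d := s₂ - s₁ with hd
  have hd0 : 0 ≤ d := by rw [hd]; linarith
  have hs2 : 0 ≤ s₂ := hs1.trans hs
  have key : N1 * N2 + v ^ 2 * d ^ 2 - τ * v * d * (N2 - N1) ≤ 0 := by
    have : N1 * N2 + v ^ 2 * d ^ 2 - τ * v * d * (N2 - N1) =
        (u ^ 2 - v ^ 2 + c - (s₁ ^ 2 + c)) * (u ^ 2 - v ^ 2 + c - (s₂ ^ 2 + c)) + (2 * u * v) ^ 2 -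
          τ * (2 * u * v) * (s₂ ^ 2 + c - (s₁ ^ 2 + c)) := by
      rw [hN1, hN2, hd]; ring
    rw [this]; exact h1
  have hN21 : N1 ≤ N2 := by
    have : N2 - N1 = 2 * u * (s₁ + s₂) := by rw [hN1, hN2]; ring
    have : 0 ≤ 2 * u * (s₁ + s₂) := by positivity
    linarith
  have ht : 0 ≤ τ * v * d := by positivity
  by_contra hcon
  push Not at hcon
  have h3 : τ * v * d < N1 := by linarith
  have h4 : 0 < N1 := ht.trans_lt h3
  have h5 : 0 < N2 := h4.trans_le hN21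
  nlinarith [mul_nonneg ht h4.le, sq_nonneg (v * d), mul_lt_mul_of_pos_right h3 h5]

theorem neg_lens {τ j₁ j₂ : ℝ} {z : ℂ} (hz : z ∈ LL τ j₁ j₂) : -z ∈ LL τ (-j₂) (-j₁) := by
  have h1 : lf τ j₁ j₂ z ≤ 0 := hz
  show lf τ (-j₂) (-j₁) (-z) ≤ 0
  unfold lf at h1 ⊢
  rw [Complex.neg_re, Complex.neg_im, abs_neg]
  nlinarith

theorem lens_mono_right {τ j₁ j₂ j₂' : ℝ} (hτ : 0 ≤ τ) (h12 : j₁ ≤ j₂) (h : j₂ ≤ j₂') {z : ℂ}
    (hz : z ∈ LL τ j₁ j₂) : z ∈ LL τ j₁ j₂' := by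
  have h1 : lf τ j₁ j₂ z ≤ 0 := hz
  show lf τ j₁ j₂' z ≤ 0
  unfold lf at h1 ⊢
  have hv0 : 0 ≤ |z.im| := abs_nonneg _
  have ht : 0 ≤ τ * |z.im| := mul_nonneg hτ hv0
  rcases le_total 0 (z.re - j₁ + τ * |z.im|) with h2 | h2
  · nlinarith [mul_nonneg h2 (sub_nonneg.2 h)]
  · -- then `z` is the point `j₁`
    have h3 : (z.re - j₁) ^ 2 + z.im ^ 2 + (j₂ - j₁) * (-(z.re - j₁) - τ * |z.im|) ≤ 0 := by
      nlinarith
    have h4 : 0 ≤ (j₂ - j₁) * (-(z.re - j₁) - τ * |z.im|) :=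
      mul_nonneg (by linarith) (by linarith)
    have h5 : z.re - j₁ = 0 := by
      have : (z.re - j₁) ^ 2 ≤ 0 := by nlinarith [sq_nonneg z.im]
      exact pow_eq_zero_iff (two_ne_zero) |>.1 (le_antisymm this (sq_nonneg _))
    have h6 : z.im = 0 := by
      have : (z.im) ^ 2 ≤ 0 := by nlinarith [sq_nonneg (z.re - j₁)]
      exact pow_eq_zero_iff (two_ne_zero) |>.1 (le_antisymm this (sq_nonneg _))
    rw [h5, h6]
    simp

theorem lens_mono_left {τ j₁ j₂ j₁' : ℝ} (hτ : 0 ≤ τ) (h12 : j₁ ≤ j₂) (h : j₁' ≤ j₁) {z : ℂ}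
    (hz : z ∈ LL τ j₁ j₂) : z ∈ LL τ j₁' j₂ := by
  have h1 := neg_lens hz
  have h2 := lens_mono_right hτ (by linarith : -j₂ ≤ -j₁) (by linarith : -j₁ ≤ -j₁') h1
  have h3 := neg_lens h2
  simpa using h3

theorem lens_mono {τ j₁ j₂ j₁' j₂' : ℝ} (hτ : 0 ≤ τ) (h12 : j₁ ≤ j₂) (h1 : j₁' ≤ j₁)
    (h2 : j₂ ≤ j₂') : LL τ j₁ j₂ ⊆ LL τ j₁' j₂' := fun _ hz =>
  lens_mono_left hτ (h12.trans h2) h1 (lens_mono_right hτ h12 h2 hz)

/-- A closed lens is contained in the open lens of a bigger interval. -/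
theorem LL_subset_LO {τ j₁ j₂ j₁' j₂' : ℝ} (hτ : 0 ≤ τ) (h12 : j₁ ≤ j₂) (h1 : j₁' < j₁)
    (h2 : j₂ < j₂') : LL τ j₁ j₂ ⊆ LO τ j₁' j₂' := by
  intro z hz
  obtain ⟨η, hη, hη1, hη2⟩ : ∃ η > 0, j₁' ≤ j₁ - η ∧ j₂ + η ≤ j₂' :=
    ⟨min (j₁ - j₁') (j₂' - j₂), by
      rw [gt_iff_lt, lt_min_iff]; constructor <;> linarith, by
      have := min_le_left (j₁ - j₁') (j₂' - j₂); linarith, by
      have := min_le_right (j₁ - j₁') (j₂' - j₂); linarith⟩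
  have h3 : lf τ j₁ j₂ z ≤ 0 := hz
  have hv0 : 0 ≤ |z.im| := abs_nonneg _
  -- use half of the room
  have h4 : lf τ (j₁ - η / 2) (j₂ + η / 2) z < 0 := by
    unfold lf at h3 ⊢
    have : 0 ≤ η * (τ * |z.im|) := by positivity
    nlinarith [mul_pos hη hη, mul_nonneg hη.le (by linarith : 0 ≤ j₂ - j₁)]
  -- for `LO` we show strictness by enlarging again
  have h5 : z ∈ LL τ (j₁ - η / 2) (j₂ + η / 2) := le_of_lt h4
  have h6 : lf τ (j₁ - η / 2 - η / 2) (j₂ + η / 2 + η / 2) z < 0 := by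
    have h7 : lf τ (j₁ - η / 2) (j₂ + η / 2) z ≤ 0 := h4.le
    unfold lf at h7 ⊢
    have : 0 ≤ η * (τ * |z.im|) := by positivity
    nlinarith [mul_pos hη hη, mul_nonneg hη.le (by linarith : 0 ≤ j₂ - j₁)]
  -- general monotonicity with strictness
  by_contra hcon
  have h8 : 0 ≤ lf τ j₁' j₂' z := by
    by_contra h9
    push Not at h9
    exact hcon h9
  have h10 : lf τ j₁' j₂' z ≤ 0 := lens_mono hτ h12 h1.le h2.le hz
  have h11 : lf τ j₁' j₂' z = 0 := le_antisymm h10 h8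
  -- shrink `j₁', j₂'` slightly: `z` is in the closed lens of a slightly smaller interval
  have h12' : z ∈ LL τ (j₁' + η / 2) (j₂' - η / 2) :=
    lens_mono hτ h12 (by linarith) (by linarith) hz
  have h13 : lf τ (j₁' + η / 2) (j₂' - η / 2) z ≤ 0 := h12'
  unfold lf at h11 h13
  have h14 : 0 ≤ η * (τ * |z.im|) := by positivity
  have h15 : 0 ≤ η * (j₂' - j₁' - η) := mul_nonneg hη.le (by linarith)
  nlinarith [mul_pos hη hη]

/-- Lenses around `0` are star shaped. -/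
theorem star_LL {τ j₁ j₂ t : ℝ} (h1 : j₁ ≤ 0) (h2 : 0 ≤ j₂) (ht0 : 0 ≤ t) (ht1 : t ≤ 1) {z : ℂ}
    (hz : z ∈ LL τ j₁ j₂) : (t : ℂ) * z ∈ LL τ j₁ j₂ := by
  have h3 : lf τ j₁ j₂ z ≤ 0 := hz
  show lf τ j₁ j₂ (t * z) ≤ 0
  unfold lf at h3 ⊢
  rw [Complex.re_ofReal_mul, Complex.im_ofReal_mul, abs_mul, abs_of_nonneg ht0]
  have h4 : 0 ≤ (1 - t) * -(j₁ * j₂) := mul_nonneg (by linarith) (by nlinarith)
  have h5 : 0 ≤ t * (1 - t) * (z.re ^ 2 + z.im ^ 2) := by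
    apply mul_nonneg (mul_nonneg ht0 (by linarith)) (by positivity)
  nlinarith

theorem segment_LL {τ j₁ j₂ : ℝ} (h1 : j₁ ≤ 0) (h2 : 0 ≤ j₂) {z : ℂ} (hz : z ∈ LL τ j₁ j₂) :
    segment ℝ 0 z ⊆ LL τ j₁ j₂ := by
  intro w hw
  rw [segment_eq_image] at hw
  obtain ⟨t, ht, rfl⟩ := hw
  have := star_LL h1 h2 ht.1 ht.2 hz
  simpa using this

/-- Real points. -/
theorem real_mem_LL {τ j₁ j₂ : ℝ} {x : ℝ} (h1 : j₁ ≤ x) (h2 : x ≤ j₂) : (x : ℂ) ∈ LL τ j₁ j₂ := by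
  show lf τ j₁ j₂ x ≤ 0
  unfold lf
  simp only [Complex.ofReal_re, Complex.ofReal_im, abs_zero]
  nlinarith

theorem real_mem_LO {τ j₁ j₂ : ℝ} {x : ℝ} (h1 : j₁ < x) (h2 : x < j₂) : (x : ℂ) ∈ LO τ j₁ j₂ := by
  show lf τ j₁ j₂ x < 0
  unfold lf
  simp only [Complex.ofReal_re, Complex.ofReal_im, abs_zero]
  nlinarith [mul_pos (sub_pos.2 h1) (sub_pos.2 h2)]

theorem of_real_mem_LL {τ j₁ j₂ : ℝ} (h12 : j₁ ≤ j₂) {z : ℂ} (hz : z ∈ LL τ j₁ j₂)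
    (h0 : z.im = 0) : j₁ ≤ z.re ∧ z.re ≤ j₂ := by
  have h3 : lf τ j₁ j₂ z ≤ 0 := hz
  unfold lf at h3
  rw [h0] at h3
  simp only [abs_zero] at h3
  constructor
  · by_contra hcon
    push Not at hcon
    nlinarith [mul_pos (sub_pos.2 hcon) (by linarith : 0 < j₂ - z.re)]
  · by_contra hcon
    push Not at hcon
    nlinarith [mul_pos (sub_pos.2 hcon) (by linarith : 0 < z.re - j₁)]

theorem of_real_mem_LO {τ j₁ j₂ : ℝ} (h12 : j₁ ≤ j₂) {z : ℂ} (hz : z ∈ LO τ j₁ j₂)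
    (h0 : z.im = 0) : j₁ < z.re ∧ z.re < j₂ := by
  have h3 : lf τ j₁ j₂ z < 0 := hz
  obtain ⟨h4, h5⟩ := of_real_mem_LL h12 (LO_subset_LL _ _ _ hz) h0
  unfold lf at h3
  rw [h0] at h3
  simp only [abs_zero] at h3
  constructor
  · rcases h4.lt_or_eq with h | h
    · exact h
    · rw [← h] at h3; simp at h3
  · rcases h5.lt_or_eq with h | h
    · exact h
    · rw [h] at h3; simp at h3

/-- The points of a lens to the right of `c` are in the slit plane with tip `c`. -/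
theorem sub_mem_slit {τ j₁ j₂ c : ℝ} (h12 : j₁ ≤ j₂) (hc : c < j₁) {z : ℂ}
    (hz : z ∈ LL τ j₁ j₂) : z - c ∈ slitPlane := by
  rw [Complex.mem_slitPlane_iff]
  by_cases h0 : z.im = 0
  · left
    have := (of_real_mem_LL h12 hz h0).1
    rw [Complex.sub_re, Complex.ofReal_re]
    linarith
  · right
    rw [Complex.sub_im, Complex.ofReal_im, sub_zero]
    exact h0

/-- room around compact sets -/
theorem exists_room {K U : Set ℂ} (hK : IsCompact K) (hU : IsOpen U) (h : K ⊆ U) :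
    ∃ r > 0, ∀ z ∈ K, closedBall z r ⊆ U := by
  obtain ⟨δ, hδ, h1⟩ := hK.exists_thickening_subset_open hU h
  refine ⟨δ / 2, by positivity, fun z hz w hw => h1 ?_⟩
  rw [mem_thickening_iff]
  refine ⟨z, hz, ?_⟩
  rw [mem_closedBall] at hw
  linarith

end Pool.Agent.T6.H50.LC
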