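import Mathlib
import Pool.Agent.T6.H50.LC.Lens

set_option autoImplicit false

/-! # The principal square root, and inverse branches -/

open Complex Topology Filter Metric Set

namespace Pool.Agent.T6.H50.LC

/-- The principal square root. -/
noncomputable def sq (z : ℂ) : ℂ := z ^ (((2 : ℕ) : ℂ)⁻¹)

theorem sq_sq (z : ℂ) : sq z ^ 2 = z := Complex.cpow_nat_inv_pow z two_ne_zero

theorem sq_ne {z : ℂ} (hz : z ≠ 0) : sq z ≠ 0 := by
  intro h
  have := sq_sq z
  rw [h] at this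
  exact hz (by simpa using this.symm)

theorem sq_eq_exp {z : ℂ} (hz : z ≠ 0) : sq z = Complex.exp (Complex.log z / 2) := by
  unfold sq
  rw [Complex.cpow_def_of_ne_zero hz]
  congr 1

theorem sq_re_nonneg (z : ℂ) : 0 ≤ (sq z).re := by
  rcases eq_or_ne z 0 with rfl | hz
  · have h : sq 0 = 0 := by
      have := sq_sq 0
      exact pow_eq_zero_iff two_ne_zero |>.1 this
    rw [h]; simp
  · rw [sq_eq_exp hz, Complex.exp_re]
    apply mul_nonneg (Real.exp_pos _).le
    have h1 : (Complex.log z / 2).im = z.arg / 2 := by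
      rw [show Complex.log z / 2 = Complex.log z / ((2 : ℝ) : ℂ) by norm_num, Complex.div_ofReal_im,
        Complex.log_im]
    rw [h1]
    apply Real.cos_nonneg_of_neg_pi_div_two_le_of_le
    · have := (Complex.neg_pi_lt_arg z).le; linarith
    · have := Complex.arg_le_pi z; linarith

theorem sq_re_pos {z : ℂ} (hz : z ∈ slitPlane) : 0 < (sq z).re := by
  have hz0 : z ≠ 0 := slitPlane_ne_zero hz
  rw [sq_eq_exp hz0, Complex.exp_re]
  apply mul_pos (Real.exp_pos _)
  have h1 : (Complex.log z / 2).im = z.arg / 2 := by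
    rw [show Complex.log z / 2 = Complex.log z / ((2 : ℝ) : ℂ) by norm_num, Complex.div_ofReal_im,
      Complex.log_im]
  rw [h1]
  have h2 : z.arg ≠ Real.pi := by
    rw [Complex.mem_slitPlane_iff_arg] at hz
    exact hz.1
  apply Real.cos_pos_of_mem_Ioo
  constructor
  · have := Complex.neg_pi_lt_arg z; linarith
  · have := lt_of_le_of_ne (Complex.arg_le_pi z) h2; linarith

theorem sq_unique {ζ z : ℂ} (h : ζ ^ 2 = z) (hre : 0 < ζ.re) : sq z = ζ := by
  have h1 : sq z ^ 2 = ζ ^ 2 := by rw [sq_sq, h]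
  rcases sq_eq_sq_iff_eq_or_eq_neg.1 h1 with h2 | h2
  · exact h2
  · exfalso
    have := sq_re_nonneg z
    rw [h2, Complex.neg_re] at this
    linarith

theorem sq_conj {z : ℂ} (hz : z ∈ slitPlane) :
    sq ((starRingEnd ℂ) z) = (starRingEnd ℂ) (sq z) := by
  apply sq_unique
  · rw [← map_pow, sq_sq]
  · rw [Complex.conj_re]; exact sq_re_pos hz

theorem analyticAt_sq {z : ℂ} (hz : z ∈ slitPlane) : AnalyticAt ℂ sq z :=
  analyticAt_id.cpow analyticAt_const hz

theorem sq_lens {τ c j₁ j₂ : ℝ} (hτ : 0 ≤ τ) (hc : c ≤ j₁) (h12 : j₁ ≤ j₂) {z : ℂ}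
    (hz : z ∈ LL τ j₁ j₂) : sq (z - c) ∈ LL τ √(j₁ - c) √(j₂ - c) := by
  apply sqrt_lens (c := c) hτ (Real.sqrt_nonneg _) (Real.sqrt_le_sqrt (by linarith))
    (sq_re_nonneg _)
  rw [sq_sq, Real.sq_sqrt (by linarith), Real.sq_sqrt (by linarith), sub_add_cancel,
    sub_add_cancel, sub_add_cancel]
  exact hz

/-- The inverse branch with values in the left half plane. -/
noncomputable def g (c z : ℂ) : ℂ := -sq (z - c)

/-- An inverse branch of the second iterate. -/
noncomputable def G (c z : ℂ) : ℂ := sq (g c z - c)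

/-- Two inverse branches of the fourth iterate. -/
noncomputable def T (σ : Bool) (c z : ℂ) : ℂ := if σ then G c (G c z) else -G c (G c z)

theorem g_sq (c z : ℂ) : g c z ^ 2 + c = z := by
  unfold g
  rw [neg_sq, sq_sq]; ring

theorem G_sq (c z : ℂ) : G c z ^ 2 + c = g c z := by
  unfold G
  rw [sq_sq]; ring

theorem T_sq (σ : Bool) (c z : ℂ) : T σ c z ^ 2 + c = g c (G c z) := by
  unfold T
  split_ifs
  · exact G_sq c _
  · rw [neg_sq]; exact G_sq c _

theorem g_lens {τ c j₁ j₂ : ℝ} (hτ : 0 ≤ τ) (hc : c ≤ j₁) (h12 : j₁ ≤ j₂) {z : ℂ}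
    (hz : z ∈ LL τ j₁ j₂) : g c z ∈ LL τ (-√(j₂ - c)) (-√(j₁ - c)) :=
  neg_lens (sq_lens hτ hc h12 hz)

/-- The real version of `G`. -/
noncomputable def gr (c x : ℝ) : ℝ := √(-√(x - c) - c)

theorem G_lens {τ c j₁ j₂ : ℝ} (hτ : 0 ≤ τ) (hc : c ≤ j₁) (h12 : j₁ ≤ j₂)
    (hc2 : √(j₂ - c) ≤ -c) {z : ℂ} (hz : z ∈ LL τ j₁ j₂) :
    G c z ∈ LL τ (gr c j₂) (gr c j₁) := by
  have h1 := g_lens hτ hc h12 hz
  have h2 : √(j₁ - c) ≤ √(j₂ - c) := Real.sqrt_le_sqrt (by linarith)
  exact sq_lens hτ (by linarith) (by linarith) h1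

/-- The points where all square roots are taken in the slit plane. -/
structure Good (c z : ℂ) : Prop where
  h1 : z - c ∈ slitPlane
  h2 : g c z - c ∈ slitPlane
  h3 : G c z - c ∈ slitPlane
  h4 : g c (G c z) - c ∈ slitPlane

theorem analyticAt_g {c z : ℂ} {E : Type*} [NormedAddCommGroup E] [NormedSpace ℂ E]
    {u v : E → ℂ} {q : E} (hu : AnalyticAt ℂ u q) (hv : AnalyticAt ℂ v q) (hc : u q = c)
    (hz : v q = z) (h : z - c ∈ slitPlane) : AnalyticAt ℂ (fun p => g (u p) (v p)) q := by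
  unfold g
  have h1 : AnalyticAt ℂ (fun p => v p - u p) q := hv.sub hu
  have h2 : AnalyticAt ℂ sq (v q - u q) := by
    rw [hc, hz]
    exact analyticAt_sq h
  exact (h2.comp_of_eq h1 rfl).neg

theorem analyticAt_G {c z : ℂ} {E : Type*} [NormedAddCommGroup E] [NormedSpace ℂ E]
    {u v : E → ℂ} {q : E} (hu : AnalyticAt ℂ u q) (hv : AnalyticAt ℂ v q) (hc : u q = c)
    (hz : v q = z) (h : z - c ∈ slitPlane) (h' : g c z - c ∈ slitPlane) :
    AnalyticAt ℂ (fun p => G (u p) (v p)) q := by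
  unfold G
  have h1 : AnalyticAt ℂ (fun p => g (u p) (v p) - u p) q := (analyticAt_g hu hv hc hz h).sub hu
  have h2 : AnalyticAt ℂ sq (g (u q) (v q) - u q) := by
    rw [hc, hz]
    exact analyticAt_sq h'
  exact h2.comp_of_eq h1 rfl

theorem analyticAt_T {c z : ℂ} (σ : Bool) {E : Type*} [NormedAddCommGroup E] [NormedSpace ℂ E]
    {u v : E → ℂ} {q : E} (hu : AnalyticAt ℂ u q) (hv : AnalyticAt ℂ v q) (hc : u q = c)
    (hz : v q = z) (h : Good c z) : AnalyticAt ℂ (fun p => T σ (u p) (v p)) q := by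
  have h1 := analyticAt_G hu hv hc hz h.h1 h.h2
  have h2 := analyticAt_G hu h1 hc (by simp only [hc, hz]) h.h3 h.h4
  unfold T
  split_ifs
  · exact h2
  · exact h2.neg

theorem G_re_pos {c z : ℂ} (h : g c z - c ∈ slitPlane) : 0 < (G c z).re := sq_re_pos h

theorem T_re {c z : ℂ} (σ : Bool) (h : Good c z) :
    if σ then 0 < (T σ c z).re else (T σ c z).re < 0 := by
  have := G_re_pos (c := c) (z := G c z) h.h4
  cases σ <;> simp [T, this]

theorem g_conj {c z : ℂ} (h : z - c ∈ slitPlane) :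
    g ((starRingEnd ℂ) c) ((starRingEnd ℂ) z) = (starRingEnd ℂ) (g c z) := by
  unfold g
  rw [← map_sub, sq_conj h, map_neg]

theorem G_conj {c z : ℂ} (h : z - c ∈ slitPlane) (h' : g c z - c ∈ slitPlane) :
    G ((starRingEnd ℂ) c) ((starRingEnd ℂ) z) = (starRingEnd ℂ) (G c z) := by
  unfold G
  rw [g_conj h, ← map_sub, sq_conj h']

theorem T_conj {c z : ℂ} (σ : Bool) (h : Good c z) :
    T σ ((starRingEnd ℂ) c) ((starRingEnd ℂ) z) = (starRingEnd ℂ) (T σ c z) := by
  have h1 := G_conj h.h1 h.h2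
  have h2 := G_conj h.h3 h.h4
  unfold T
  rw [h1, h2]
  split_ifs
  · rfl
  · rw [map_neg]

end Pool.Agent.T6.H50.LC
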