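import Mathlib
import Pool.Agent.H713R2.AR.PR
import Pool.Agent.T6.H50.LC.Sq

set_option autoImplicit false

/-! # The system of parameter maps (interface) -/

open Complex Topology Filter Metric Set N62a1eb23

namespace Pool.Agent.T6.H50.LC

open Pool.Agent.H713R2 Pool.Agent.H712R2

/-- Words in the inverse branches (the head is applied last). -/
noncomputable def Tw : List Bool → ℂ → ℂ → ℂ
  | [], _, v => v
  | σ :: I, c, v => T σ c (Tw I c v)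

/-- The slope of the lenses. -/
noncomputable def τ₀ : ℝ := 10 ^ 17

/-- The domains. -/
noncomputable def UU (I : List Bool) : Set ℂ :=
  if I = [] then LO τ₀ (-13 / 20) (13 / 20) else LO τ₀ (-4 / 5) (4 / 5)

/-- The base point. -/
noncomputable def V0 (c₀ : ℝ) : ℂ :=
  ((((1 + 3 * I) ^ 2 + c₀) ^ 2 + c₀) ^ 2 + c₀) ^ 2 + c₀

/-- The system of parameter maps. -/
structure KSys (c₀ δ δ₁ L : ℝ) (m : ℕ) (κ : List Bool → ℂ → ℂ) : Prop where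
  hc₀ : -15437 / 10000 < c₀ ∧ c₀ < -15436 / 10000
  hδ : 0 < δ ∧ δ ≤ 1 / 10000
  hδ₁ : 0 < δ₁ ∧ δ₁ < δ
  hm : Odd m
  hL : 0 < L
  good : ∀ c ∈ ball (c₀ : ℂ) δ, ∀ z ∈ LL τ₀ (-4 / 5) (4 / 5),
    Good c z ∧ G c (G c z) ∈ LO τ₀ (1 / 25) (16 / 25)
  gmap : ∀ c ∈ ball (c₀ : ℂ) δ, ∀ z ∈ LL τ₀ (-3 / 2) (7 / 10),
    z - c ∈ slitPlane ∧ g c z ∈ LO τ₀ (-14995 / 10000) (1 / 10)
  base : ∀ c ∈ ball (c₀ : ℂ) δ, ‖T true c (V0 c₀) - (1 + 3 * I)‖ ≤ 1 / 2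
  diff : ∀ I, DifferentiableOn ℂ (κ I) (UU I)
  mem : ∀ I, ∀ v ∈ UU I, κ I v ∈ closedBall (c₀ : ℂ) δ₁
  eq : ∀ I, ∀ v ∈ UU I, P 2 3 (κ I v) = (g (κ I v))^[m] (Tw I (κ I v) v)
  est : ∀ I, ∀ v ∈ UU I, ∀ c ∈ closedBall (c₀ : ℂ) δ₁,
    ‖c - κ I v‖ ≤ L * ‖P 2 3 c - (g c)^[m] (Tw I c v)‖

/-- The regions in which the tree moves. -/
def E (s : Bool) : Set ℂ := {z | ‖z‖ < 3 * 10 ^ 8 ∧ 1 < (if s then z.im else -z.im)}

end Pool.Agent.T6.H50.LC
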