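import Mathlib

set_option autoImplicit false

/-! # Uniform contraction of compositions of holomorphic maps with relatively compact images -/

open Complex Topology Filter Metric Set

namespace Pool.Agent.T6.H50.LC

/-- Composition of a list of maps (the head is applied last). -/
def comp : List (ℂ → ℂ) → ℂ → ℂ
  | [], z => z
  | f :: fs, z => f (comp fs z)

/-- A list of holomorphic maps from `Ω` into `Ω'`. -/
def Adm (Ω Ω' : Set ℂ) (fs : List (ℂ → ℂ)) : Prop :=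
  ∀ f ∈ fs, DifferentiableOn ℂ f Ω ∧ MapsTo f Ω Ω'

theorem comp_mem {Ω Ω' : Set ℂ} (hs : Ω' ⊆ Ω) {fs : List (ℂ → ℂ)} (h : Adm Ω Ω' fs) {z : ℂ}
    (hz : z ∈ Ω) : comp fs z ∈ Ω := by
  induction fs with
  | nil => exact hz
  | cons f fs ih =>
    have h1 := ih (fun g hg => h g (List.mem_cons_of_mem _ hg))
    exact hs ((h f List.mem_cons_self).2 h1)

theorem comp_diff {Ω Ω' : Set ℂ} (hs : Ω' ⊆ Ω) {fs : List (ℂ → ℂ)}
    (h : Adm Ω Ω' fs) : DifferentiableOn ℂ (comp fs) Ω := by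
  induction fs with
  | nil => exact differentiableOn_id
  | cons f fs ih =>
    have h0 : Adm Ω Ω' fs := fun g hg => h g (List.mem_cons_of_mem _ hg)
    have h1 := ih h0
    exact (h f List.mem_cons_self).1.comp h1 (fun z hz => comp_mem hs h0 hz)

/-- The inflated composition. -/
theorem inflate {Ω Ω' : Set ℂ} (hΩ : IsOpen Ω) (hs : Ω' ⊆ Ω) {d κ : ℝ} (hκ : 0 < κ)
    (hdiam : ∀ a ∈ Ω', ∀ b ∈ Ω', ‖a - b‖ ≤ d) (hsub : ∀ a ∈ Ω', closedBall a (κ * d) ⊆ Ω)
    {fs : List (ℂ → ℂ)} (h : Adm Ω Ω' fs) {z : ℂ} (hz : z ∈ Ω) :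
    ∃ G : ℂ → ℂ, DifferentiableOn ℂ G Ω ∧ MapsTo G Ω Ω ∧ G z = comp fs z ∧
      deriv G z = ((1 + κ : ℝ) : ℂ) ^ fs.length * deriv (comp fs) z := by
  induction fs with
  | nil =>
    refine ⟨fun x => x, differentiableOn_id, fun _ hx => hx, rfl, ?_⟩
    have : comp [] = fun x => x := rfl
    rw [this]
    simp
  | cons f fs ih =>
    have h0 : Adm Ω Ω' fs := fun g hg => h g (List.mem_cons_of_mem _ hg)
    obtain ⟨G, hG1, hG2, hG3, hG4⟩ := ih h0
    obtain ⟨hf1, hf2⟩ := h f List.mem_cons_self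
    have hz1 : comp fs z ∈ Ω := comp_mem hs h0 hz
    set z1 := comp fs z with hz1def
    set F : ℂ → ℂ := fun ζ => f ζ + (κ : ℂ) * (f ζ - f z1) with hF
    have hFd : DifferentiableOn ℂ F Ω := hf1.add ((hf1.sub_const _).const_mul _)
    have hFm : MapsTo F Ω Ω := by
      intro ζ hζ
      apply hsub (f ζ) (hf2 hζ)
      rw [mem_closedBall, dist_eq_norm]
      simp only [hF, add_sub_cancel_left]
      rw [norm_mul, Complex.norm_real, Real.norm_eq_abs, abs_of_pos hκ]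
      exact mul_le_mul_of_nonneg_left (hdiam _ (hf2 hζ) _ (hf2 hz1)) hκ.le
    refine ⟨F ∘ G, hFd.comp hG1 hG2, fun x hx => hFm (hG2 hx), ?_, ?_⟩
    · simp only [Function.comp, hG3, hF, comp]
      rw [sub_self, mul_zero, add_zero]
    · have hfd : DifferentiableAt ℂ f z1 := hf1.differentiableAt (hΩ.mem_nhds hz1)
      have hGd : DifferentiableAt ℂ G z := hG1.differentiableAt (hΩ.mem_nhds hz)
      have hcd : DifferentiableAt ℂ (comp fs) z :=
        (comp_diff hs h0).differentiableAt (hΩ.mem_nhds hz)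
      have hFderiv : HasDerivAt F ((1 + κ : ℝ) * deriv f z1) z1 := by
        have h1 := hfd.hasDerivAt.add ((hfd.hasDerivAt.sub_const (f z1)).const_mul (κ : ℂ))
        refine h1.congr_deriv ?_
        push_cast; ring
      have h2 : HasDerivAt (F ∘ G) ((1 + κ : ℝ) * deriv f z1 * deriv G z) z := by
        have h3 : HasDerivAt F ((1 + κ : ℝ) * deriv f z1) (G z) := by rw [hG3]; exact hFderiv
        exact h3.comp z hGd.hasDerivAt
      have h4 : HasDerivAt (comp (f :: fs)) (deriv f z1 * deriv (comp fs) z) z := by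
        have h5 : HasDerivAt f (deriv f z1) (comp fs z) := hfd.hasDerivAt
        exact h5.comp z hcd.hasDerivAt
      rw [h2.deriv, h4.deriv, hG4, List.length_cons, pow_succ]
      ring

theorem deriv_comp_le {Ω Ω' : Set ℂ} (hΩ : IsOpen Ω) (hs : Ω' ⊆ Ω) {R d κ r : ℝ} (hκ : 0 < κ)
    (hR : ∀ z ∈ Ω, ‖z‖ ≤ R) (hr : 0 < r)
    (hdiam : ∀ a ∈ Ω', ∀ b ∈ Ω', ‖a - b‖ ≤ d) (hsub : ∀ a ∈ Ω', closedBall a (κ * d) ⊆ Ω)
    {fs : List (ℂ → ℂ)} (h : Adm Ω Ω' fs) {z : ℂ} (hz : closedBall z r ⊆ Ω) :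
    ‖deriv (comp fs) z‖ ≤ R / r * (1 / (1 + κ)) ^ fs.length := by
  have hz0 : z ∈ Ω := hz (mem_closedBall_self hr.le)
  obtain ⟨G, hG1, hG2, hG3, hG4⟩ := inflate hΩ hs hκ hdiam hsub h hz0
  have h1 : ‖deriv G z‖ ≤ R / r := by
    apply Complex.norm_deriv_le_of_forall_mem_sphere_norm_le hr
    · apply DifferentiableOn.diffContOnCl
      rw [closure_ball _ hr.ne']
      exact hG1.mono hz
    · intro w hw
      exact hR _ (hG2 (hz (sphere_subset_closedBall hw)))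
  rw [hG4, norm_mul, norm_pow, Complex.norm_real, Real.norm_eq_abs,
    abs_of_pos (by linarith : (0:ℝ) < 1 + κ)] at h1
  have h2 : (0:ℝ) < (1 + κ) ^ fs.length := by positivity
  rw [div_pow, one_pow, mul_one_div, le_div_iff₀ h2, mul_comm]
  exact h1

/-- Contraction along a segment. -/
theorem comp_lip {Ω Ω' : Set ℂ} (hΩ : IsOpen Ω) (hs : Ω' ⊆ Ω) {R d κ r : ℝ} (hκ : 0 < κ)
    (hR : ∀ z ∈ Ω, ‖z‖ ≤ R) (hr : 0 < r)
    (hdiam : ∀ a ∈ Ω', ∀ b ∈ Ω', ‖a - b‖ ≤ d) (hsub : ∀ a ∈ Ω', closedBall a (κ * d) ⊆ Ω)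
    {fs : List (ℂ → ℂ)} (h : Adm Ω Ω' fs) {u v : ℂ}
    (hseg : ∀ z ∈ segment ℝ u v, closedBall z r ⊆ Ω) :
    ‖comp fs v - comp fs u‖ ≤ R / r * (1 / (1 + κ)) ^ fs.length * ‖v - u‖ := by
  apply (convex_segment (𝕜 := ℝ) u v).norm_image_sub_le_of_norm_deriv_le
  · intro x hx
    exact (comp_diff hs h).differentiableAt (hΩ.mem_nhds (hseg x hx (mem_closedBall_self hr.le)))
  · intro x hx
    exact deriv_comp_le hΩ hs hκ hR hr hdiam hsub h (hseg x hx)
  · exact left_mem_segment ℝ u v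
  · exact right_mem_segment ℝ u v

end Pool.Agent.T6.H50.LC
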