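import Mathlib
import Pool.Agent.T6.H50.LC.Sys
import Pool.Agent.T6.H50.LC.Contr

set_option autoImplicit false

/-! # Local dynamics at the parameter `c₀` -/

open Complex Topology Filter Metric Set N62a1eb23

namespace Pool.Agent.T6.H50.LC

open Pool.Agent.H713R2 Pool.Agent.H712R2

theorem τ₀_nonneg : (0 : ℝ) ≤ τ₀ := by unfold τ₀; positivity

theorem exists_a : ∃ a : ℝ, a ^ 3 + 2 * a ^ 2 = 2 ∧ 83928 / 100000 < a ∧ a < 83929 / 100000 := by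
  have hcont : ContinuousOn (fun a : ℝ => a ^ 3 + 2 * a ^ 2) (Icc (83928 / 100000) (83929 / 100000)) := by
    fun_prop
  have h := intermediate_value_Ioo (by norm_num : (83928 / 100000 : ℝ) ≤ 83929 / 100000) hcont
  have h2 : (2 : ℝ) ∈ Ioo ((83928 / 100000 : ℝ) ^ 3 + 2 * (83928 / 100000 : ℝ) ^ 2)
      ((83929 / 100000 : ℝ) ^ 3 + 2 * (83929 / 100000 : ℝ) ^ 2) := by
    constructor <;> norm_num
  obtain ⟨a, ha, h3⟩ := h h2
  exact ⟨a, h3, ha.1, ha.2⟩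

/-- Numerical facts. -/
theorem lens_facts {c : ℝ} (h1 : -15437 / 10000 < c) (h2 : c < -15436 / 10000) :
    √(4 / 5 - c) < -c ∧ gr c (-4 / 5) ≤ 8258 / 10000 ∧ √(8258 / 10000 - c) < -c ∧
    1 / 20 ≤ gr c (8258 / 10000) ∧ gr c 0 ≤ 3 / 5 ∧ √(7 / 10 - c) ≤ 1499 / 1000 := by
  have e1 : √(4 / 5 - c) < -c := by
    rw [Real.sqrt_lt' (by linarith)]
    nlinarith
  have e2 : (8623 / 10000 : ℝ) ≤ √(-4 / 5 - c) := by
    apply Real.le_sqrt_of_sq_le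
    nlinarith
  have e3 : √(8258 / 10000 - c) ≤ 15395 / 10000 := by
    apply Real.sqrt_le_iff.2 ⟨by norm_num, by nlinarith⟩
  have e4 : (124 / 100 : ℝ) ≤ √(0 - c) := by
    apply Real.le_sqrt_of_sq_le
    nlinarith
  refine ⟨e1, ?_, by linarith, ?_, ?_, ?_⟩
  · unfold gr
    apply Real.sqrt_le_iff.2 ⟨by norm_num, ?_⟩
    nlinarith
  · unfold gr
    apply Real.le_sqrt_of_sq_le
    nlinarith
  · unfold gr
    apply Real.sqrt_le_iff.2 ⟨by norm_num, ?_⟩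
    nlinarith
  · apply Real.sqrt_le_iff.2 ⟨by norm_num, by nlinarith⟩

theorem gr_anti {c x y : ℝ} (h : x ≤ y) : gr c y ≤ gr c x := by
  unfold gr
  apply Real.sqrt_le_sqrt
  have := Real.sqrt_le_sqrt (by linarith : x - c ≤ y - c)
  linarith

theorem gr_nonneg (c x : ℝ) : 0 ≤ gr c x := Real.sqrt_nonneg _

theorem good_at {c : ℝ} (h1 : -15437 / 10000 < c) (h2 : c < -15436 / 10000) {τ : ℝ} (hτ : 0 ≤ τ)
    {z : ℂ} (hz : z ∈ LL τ (-4 / 5) (4 / 5)) :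
    Good c z ∧ G c (G c z) ∈ LO τ (1 / 25) (16 / 25) := by
  obtain ⟨e1, e2, e3, e4, e5, -⟩ := lens_facts h1 h2
  have hg := g_lens hτ (by linarith : c ≤ -4 / 5) (by norm_num) hz
  have hs1 : √(-4 / 5 - c) ≤ √(4 / 5 - c) := Real.sqrt_le_sqrt (by linarith)
  have hG := G_lens hτ (by linarith : c ≤ -4 / 5) (by norm_num) e1.le hz
  have hG1 : gr c (4 / 5) ≤ gr c (-4 / 5) := gr_anti (by norm_num)
  have hG0 := gr_nonneg c (4 / 5)
  have hG' : G c z ∈ LL τ 0 (8258 / 10000) := lens_mono hτ hG1 hG0 e2 hG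
  have hgg := g_lens hτ (by linarith : c ≤ 0) (by norm_num) hG'
  have hs2 : √(0 - c) ≤ √(8258 / 10000 - c) := Real.sqrt_le_sqrt (by norm_num)
  have hGG := G_lens hτ (by linarith : c ≤ 0) (by norm_num) e3.le hG'
  refine ⟨⟨?_, ?_, ?_, ?_⟩, ?_⟩
  · exact sub_mem_slit (by norm_num) (by linarith) hz
  · exact sub_mem_slit (by linarith) (by linarith) hg
  · exact sub_mem_slit (by norm_num) (by linarith) hG'
  · exact sub_mem_slit (by linarith) (by linarith) hgg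
  · exact LL_subset_LO hτ (gr_anti (by norm_num)) (by linarith) (by linarith) hGG

theorem gmap_at {c : ℝ} (h1 : -15437 / 10000 < c) (h2 : c < -15436 / 10000) {τ : ℝ} (hτ : 0 ≤ τ)
    {z : ℂ} (hz : z ∈ LL τ (-3 / 2) (7 / 10)) :
    z - c ∈ slitPlane ∧ g c z ∈ LO τ (-14995 / 10000) (1 / 10) := by
  obtain ⟨-, -, -, -, -, e6⟩ := lens_facts h1 h2
  have hg := g_lens hτ (by linarith : c ≤ -3 / 2) (by norm_num) hz
  have hs1 : √(-3 / 2 - c) ≤ √(7 / 10 - c) := Real.sqrt_le_sqrt (by linarith)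
  have hs0 := Real.sqrt_nonneg (-3 / 2 - c)
  exact ⟨sub_mem_slit (by norm_num) (by linarith) hz,
    LL_subset_LO hτ (by linarith) (by linarith) (by linarith) hg⟩

/-- Openness of the first condition. -/
theorem good_nhds {c z : ℂ} {τ j₁ j₂ : ℝ} (h : Good c z ∧ G c (G c z) ∈ LO τ j₁ j₂) :
    ∀ᶠ p : ℂ × ℂ in 𝓝 (c, z), Good p.1 p.2 ∧ G p.1 (G p.1 p.2) ∈ LO τ j₁ j₂ := by
  obtain ⟨hgood, hG⟩ := h
  have a1 : AnalyticAt ℂ (fun p : ℂ × ℂ => p.1) (c, z) := analyticAt_fst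
  have a2 : AnalyticAt ℂ (fun p : ℂ × ℂ => p.2) (c, z) := analyticAt_snd
  have g1 := analyticAt_g a1 a2 rfl rfl hgood.h1
  have g2 := analyticAt_G a1 a2 rfl rfl hgood.h1 hgood.h2
  have g3 := analyticAt_g a1 g2 rfl rfl hgood.h3
  have g4 := analyticAt_G a1 g2 rfl rfl hgood.h3 hgood.h4
  have b1 := (a2.sub a1).continuousAt.eventually_mem (isOpen_slitPlane.mem_nhds hgood.h1)
  have b2 := (g1.sub a1).continuousAt.eventually_mem (isOpen_slitPlane.mem_nhds hgood.h2)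
  have b3 := (g2.sub a1).continuousAt.eventually_mem (isOpen_slitPlane.mem_nhds hgood.h3)
  have b4 := (g3.sub a1).continuousAt.eventually_mem (isOpen_slitPlane.mem_nhds hgood.h4)
  have b5 := g4.continuousAt.eventually_mem ((isOpen_LO _ _ _).mem_nhds hG)
  filter_upwards [b1, b2, b3, b4, b5] with p h1 h2 h3 h4 h5
  exact ⟨⟨h1, h2, h3, h4⟩, h5⟩

theorem gmap_nhds {c z : ℂ} {τ j₁ j₂ : ℝ} (h : z - c ∈ slitPlane ∧ g c z ∈ LO τ j₁ j₂) :
    ∀ᶠ p : ℂ × ℂ in 𝓝 (c, z), p.2 - p.1 ∈ slitPlane ∧ g p.1 p.2 ∈ LO τ j₁ j₂ := by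
  obtain ⟨h1, h2⟩ := h
  have a1 : AnalyticAt ℂ (fun p : ℂ × ℂ => p.1) (c, z) := analyticAt_fst
  have a2 : AnalyticAt ℂ (fun p : ℂ × ℂ => p.2) (c, z) := analyticAt_snd
  have g1 := analyticAt_g a1 a2 rfl rfl h1
  have b1 := (a2.sub a1).continuousAt.eventually_mem (isOpen_slitPlane.mem_nhds h1)
  have b5 := g1.continuousAt.eventually_mem ((isOpen_LO _ _ _).mem_nhds h2)
  filter_upwards [b1, b5] with p h1 h5
  exact ⟨h1, h5⟩

theorem exists_ball_good {c : ℝ} (h1 : -15437 / 10000 < c) (h2 : c < -15436 / 10000) :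
    ∀ᶠ w : ℂ in 𝓝 (c : ℂ), (∀ z ∈ LL τ₀ (-4 / 5) (4 / 5),
      Good w z ∧ G w (G w z) ∈ LO τ₀ (1 / 25) (16 / 25)) ∧
      (∀ z ∈ LL τ₀ (-3 / 2) (7 / 10),
        z - w ∈ slitPlane ∧ g w z ∈ LO τ₀ (-14995 / 10000) (1 / 10)) := by
  have b1 := (isCompact_LL τ₀ (-4 / 5) (4 / 5)).eventually_forall_of_forall_eventually
    (x₀ := (c : ℂ)) (P := fun w z => Good w z ∧ G w (G w z) ∈ LO τ₀ (1 / 25) (16 / 25))
    (fun y hy => good_nhds (good_at h1 h2 τ₀_nonneg hy))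
  have b2 := (isCompact_LL τ₀ (-3 / 2) (7 / 10)).eventually_forall_of_forall_eventually
    (x₀ := (c : ℂ)) (P := fun w z => z - w ∈ slitPlane ∧ g w z ∈ LO τ₀ (-14995 / 10000) (1 / 10))
    (fun y hy => gmap_nhds (gmap_at h1 h2 τ₀_nonneg hy))
  exact b1.and b2

end Pool.Agent.T6.H50.LC
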