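import Mathlib
import Pool.Agent.T6.H50.LC.Dyn

set_option autoImplicit false

/-! # Uniform contraction, the fixed point, and the base point -/

open Complex Topology Filter Metric Set N62a1eb23

namespace Pool.Agent.T6.H50.LC

open Pool.Agent.H713R2 Pool.Agent.H712R2

/-- The conditions on a parameter `c`. -/
def Loc (c : ℂ) : Prop :=
  (∀ z ∈ LL τ₀ (-4 / 5) (4 / 5), Good c z ∧ G c (G c z) ∈ LO τ₀ (1 / 25) (16 / 25)) ∧
      (∀ z ∈ LL τ₀ (-3 / 2) (7 / 10),
        z - c ∈ slitPlane ∧ g c z ∈ LO τ₀ (-14995 / 10000) (1 / 10))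

theorem T_mem {c : ℂ} (h : Loc c) (σ : Bool) {z : ℂ} (hz : z ∈ LL τ₀ (-4 / 5) (4 / 5)) :
    T σ c z ∈ LL τ₀ (-16 / 25) (16 / 25) := by
  have h1 := LO_subset_LL _ _ _ (h.1 z hz).2
  unfold T
  split_ifs
  · exact lens_mono τ₀_nonneg (by norm_num) (by norm_num) le_rfl h1
  · have h2 := neg_lens h1
    refine lens_mono τ₀_nonneg (by norm_num) ?_ ?_ h2 <;> norm_num

theorem Tw_mem {c : ℂ} (h : Loc c) (I : List Bool) {z : ℂ} (hz : z ∈ LL τ₀ (-4 / 5) (4 / 5)) :
    Tw I c z ∈ LL τ₀ (-4 / 5) (4 / 5) := by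
  induction I with
  | nil => exact hz
  | cons σ I ih =>
    exact lens_mono τ₀_nonneg (by norm_num) (by norm_num) (by norm_num) (T_mem h σ ih)

theorem Tw_mem' {c : ℂ} (h : Loc c) {I : List Bool} (hI : I ≠ []) {z : ℂ}
    (hz : z ∈ LL τ₀ (-4 / 5) (4 / 5)) : Tw I c z ∈ LL τ₀ (-16 / 25) (16 / 25) := by
  cases I with
  | nil => exact absurd rfl hI
  | cons σ I => exact T_mem h σ (Tw_mem h I hz)

theorem UU_mem {I : List Bool} {z : ℂ} (hz : z ∈ UU I) : z ∈ LL τ₀ (-4 / 5) (4 / 5) := by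
  unfold UU at hz
  split_ifs at hz
  · exact lens_mono τ₀_nonneg (by norm_num) (by norm_num) (by norm_num) (LO_subset_LL _ _ _ hz)
  · exact LO_subset_LL _ _ _ hz

theorem isOpen_UU (I : List Bool) : IsOpen (UU I) := by
  unfold UU
  split_ifs
  · exact isOpen_LO _ _ _
  · exact isOpen_LO _ _ _

theorem Tw_mem_UU {c : ℂ} (h : Loc c) {I : List Bool} {z : ℂ}
    (hz : z ∈ UU I) : Tw I c z ∈ LL τ₀ (-13 / 20) (13 / 20) := by
  by_cases hI : I = []
  · subst hI
    unfold UU at hz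
    rw [if_pos rfl] at hz
    exact LO_subset_LL _ _ _ hz
  · exact lens_mono τ₀_nonneg (by norm_num) (by norm_num) (by norm_num) (Tw_mem' h hI (UU_mem hz))

theorem Tw_append (I J : List Bool) (c z : ℂ) : Tw (I ++ J) c z = Tw I c (Tw J c z) := by
  induction I with
  | nil => rfl
  | cons σ I ih => simp [Tw, ih]

theorem analyticAt_Tw {c z : ℂ} (h : Loc c) (I : List Bool) (hz : z ∈ LL τ₀ (-4 / 5) (4 / 5)) :
    AnalyticAt ℂ (fun p : ℂ × ℂ => Tw I p.1 p.2) (c, z) := by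
  induction I with
  | nil => exact analyticAt_snd
  | cons σ I ih =>
    exact analyticAt_T σ analyticAt_fst ih rfl rfl (h.1 _ (Tw_mem h I hz)).1

theorem gi_mem {c : ℂ} (h : Loc c) (m : ℕ) {z : ℂ} (hz : z ∈ LL τ₀ (-3 / 2) (7 / 10)) :
    (g c)^[m] z ∈ LL τ₀ (-3 / 2) (7 / 10) := by
  induction m with
  | zero => exact hz
  | succ m ih =>
    rw [Function.iterate_succ_apply']
    exact lens_mono τ₀_nonneg (by norm_num) (by norm_num) (by norm_num)
      (LO_subset_LL _ _ _ (h.2 _ ih).2)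

theorem analyticAt_gi {c z : ℂ} (h : Loc c) (m : ℕ) {E : Type*} [NormedAddCommGroup E]
    [NormedSpace ℂ E] {u v : E → ℂ} {q : E} (hu : AnalyticAt ℂ u q) (hv : AnalyticAt ℂ v q)
    (hc : u q = c) (hzq : v q = z) (hz : z ∈ LL τ₀ (-3 / 2) (7 / 10)) :
    AnalyticAt ℂ (fun p => (g (u p))^[m] (v p)) q := by
  induction m with
  | zero => exact hv
  | succ m ih =>
    simp only [Function.iterate_succ_apply']
    refine analyticAt_g hu ih hc (z := (g c)^[m] z) ?_ (h.2 _ (gi_mem h m hz)).1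
    simp only [hc, hzq]

/-- Uniform contraction of the words. -/
theorem Tw_contr : ∃ C lam : ℝ, 0 < C ∧ 0 < lam ∧ lam < 1 ∧ ∀ c : ℂ, Loc c → ∀ (I : List Bool),
    ∀ u ∈ LL τ₀ (-16 / 25) (16 / 25), ‖Tw I c u - Tw I c 0‖ ≤ C * lam ^ I.length := by
  set Ω := LO τ₀ (-4 / 5) (4 / 5) with hΩdef
  set Ω' := LL τ₀ (-16 / 25) (16 / 25) with hΩ'def
  have hΩ : IsOpen Ω := isOpen_LO _ _ _
  have hs : Ω' ⊆ Ω := LL_subset_LO τ₀_nonneg (by norm_num) (by norm_num) (by norm_num)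
  obtain ⟨ρ, hρ, hroom⟩ := exists_room (isCompact_LL τ₀ (-16 / 25) (16 / 25)) hΩ hs
  obtain ⟨R, hR⟩ := (isCompact_LL τ₀ (-4 / 5) (4 / 5)).isBounded.exists_norm_le
  have h0 : (0 : ℂ) ∈ LL τ₀ (-4 / 5) (4 / 5) := by
    have := real_mem_LL (τ := τ₀) (x := 0) (by norm_num : (-4 / 5 : ℝ) ≤ 0)
      (by norm_num : (0 : ℝ) ≤ 4 / 5)
    simpa using this
  have hR0 : 0 ≤ R := (norm_nonneg _).trans (hR 0 h0)
  set R' := R + 1 with hR'def
  have hR' : 0 < R' := by linarith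
  have hRΩ : ∀ z ∈ Ω, ‖z‖ ≤ R' := fun z hz => (hR z (LO_subset_LL _ _ _ hz)).trans (by linarith)
  have hdiam : ∀ a ∈ Ω', ∀ b ∈ Ω', ‖a - b‖ ≤ 2 * R' := by
    intro a ha b hb
    have h1 := hRΩ a (hs ha)
    have h2 := hRΩ b (hs hb)
    have := norm_sub_le a b
    linarith
  set κ := ρ / (2 * R') with hκdef
  have hκ : 0 < κ := by positivity
  have hκR : κ * (2 * R') = ρ := by rw [hκdef]; field_simp
  refine ⟨R' / ρ * R', 1 / (1 + κ), by positivity, by positivity, ?_, ?_⟩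
  · rw [div_lt_one (by positivity)]; linarith
  · intro c hc I u hu
    have hadm : Adm Ω Ω' (I.map fun σ => T σ c) := by
      intro f hf
      obtain ⟨σ, -, rfl⟩ := List.mem_map.1 hf
      refine ⟨fun z hz => ?_, fun z hz => T_mem hc σ (LO_subset_LL _ _ _ hz)⟩
      have h1 : AnalyticAt ℂ (fun p : ℂ => T σ c p) z :=
        analyticAt_T σ analyticAt_const analyticAt_id rfl rfl (hc.1 z (LO_subset_LL _ _ _ hz)).1
      exact h1.differentiableAt.differentiableWithinAt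
    have hcomp : ∀ (J : List Bool) (z : ℂ), comp (J.map fun σ => T σ c) z = Tw J c z := by
      intro J z
      induction J with
      | nil => rfl
      | cons σ J ih => simp [comp, Tw, ih]
    have h2 := comp_lip hΩ hs hκ hRΩ hρ hdiam (by rw [hκR]; exact hroom) hadm (u := 0) (v := u)
      (fun z hz => hroom z (segment_LL (by norm_num) (by norm_num) hu hz))
    rw [hcomp, hcomp, List.length_map, sub_zero] at h2
    have h3 : ‖u‖ ≤ R' := hRΩ u (hs hu)
    calc ‖Tw I c u - Tw I c 0‖ ≤ R' / ρ * (1 / (1 + κ)) ^ I.length * ‖u‖ := h2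
      _ ≤ R' / ρ * (1 / (1 + κ)) ^ I.length * R' := by
          apply mul_le_mul_of_nonneg_left h3; positivity
      _ = R' / ρ * R' * (1 / (1 + κ)) ^ I.length := by ring

/-- Uniform contraction of the iterates of `g`. -/
theorem gi_contr : ∃ C lam : ℝ, 0 < C ∧ 0 < lam ∧ lam < 1 ∧ ∀ c : ℂ, Loc c → ∀ m : ℕ,
    ∀ u ∈ LL τ₀ (-14995 / 10000) (1 / 10), ‖(g c)^[m] u - (g c)^[m] 0‖ ≤ C * lam ^ m := by
  set Ω := LO τ₀ (-3 / 2) (7 / 10) with hΩdef
  set Ω' := LL τ₀ (-14995 / 10000) (1 / 10) with hΩ'def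
  have hΩ : IsOpen Ω := isOpen_LO _ _ _
  have hs : Ω' ⊆ Ω := LL_subset_LO τ₀_nonneg (by norm_num) (by norm_num) (by norm_num)
  obtain ⟨ρ, hρ, hroom⟩ := exists_room (isCompact_LL τ₀ (-14995 / 10000) (1 / 10)) hΩ hs
  obtain ⟨R, hR⟩ := (isCompact_LL τ₀ (-3 / 2) (7 / 10)).isBounded.exists_norm_le
  have h0 : (0 : ℂ) ∈ LL τ₀ (-3 / 2) (7 / 10) := by
    have := real_mem_LL (τ := τ₀) (x := 0) (by norm_num : (-3 / 2 : ℝ) ≤ 0)
      (by norm_num : (0 : ℝ) ≤ 7 / 10)
    simpa using this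
  have hR0 : 0 ≤ R := (norm_nonneg _).trans (hR 0 h0)
  set R' := R + 1 with hR'def
  have hR' : 0 < R' := by linarith
  have hRΩ : ∀ z ∈ Ω, ‖z‖ ≤ R' := fun z hz => (hR z (LO_subset_LL _ _ _ hz)).trans (by linarith)
  have hdiam : ∀ a ∈ Ω', ∀ b ∈ Ω', ‖a - b‖ ≤ 2 * R' := by
    intro a ha b hb
    have h1 := hRΩ a (hs ha)
    have h2 := hRΩ b (hs hb)
    have := norm_sub_le a b
    linarith
  set κ := ρ / (2 * R') with hκdef
  have hκ : 0 < κ := by positivity
  have hκR : κ * (2 * R') = ρ := by rw [hκdef]; field_simp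
  refine ⟨R' / ρ * R', 1 / (1 + κ), by positivity, by positivity, ?_, ?_⟩
  · rw [div_lt_one (by positivity)]; linarith
  · intro c hc m u hu
    have hadm : Adm Ω Ω' (List.replicate m (g c)) := by
      intro f hf
      obtain ⟨-, rfl⟩ := List.mem_replicate.1 hf
      refine ⟨fun z hz => ?_, fun z hz => LO_subset_LL _ _ _ (hc.2 z (LO_subset_LL _ _ _ hz)).2⟩
      have h1 : AnalyticAt ℂ (fun p : ℂ => g c p) z :=
        analyticAt_g analyticAt_const analyticAt_id rfl rfl (hc.2 z (LO_subset_LL _ _ _ hz)).1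
      exact h1.differentiableAt.differentiableWithinAt
    have hcomp : ∀ (j : ℕ) (z : ℂ), comp (List.replicate j (g c)) z = (g c)^[j] z := by
      intro j z
      induction j with
      | zero => rfl
      | succ j ih => rw [List.replicate_succ, Function.iterate_succ_apply', ← ih]; rfl
    have h2 := comp_lip hΩ hs hκ hRΩ hρ hdiam (by rw [hκR]; exact hroom) hadm (u := 0) (v := u)
      (fun z hz => hroom z (segment_LL (by norm_num) (by norm_num) hu hz))
    rw [hcomp, hcomp, List.length_replicate, sub_zero] at h2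
    have h3 : ‖u‖ ≤ R' := hRΩ u (hs hu)
    calc ‖(g c)^[m] u - (g c)^[m] 0‖ ≤ R' / ρ * (1 / (1 + κ)) ^ m * ‖u‖ := h2
      _ ≤ R' / ρ * (1 / (1 + κ)) ^ m * R' := by
          apply mul_le_mul_of_nonneg_left h3; positivity
      _ = R' / ρ * R' * (1 / (1 + κ)) ^ m := by ring

/-- The fixed point of `f_c` in the left half plane. -/
noncomputable def al (c : ℂ) : ℂ := (1 - sq (1 - 4 * c)) / 2

theorem al_eq (c : ℂ) : al c ^ 2 + c = al c := by
  have h := sq_sq (1 - 4 * c)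
  unfold al
  linear_combination (1 / 4 : ℂ) * h

theorem g_al {c : ℂ} (h : (al c).re < 0) : g c (al c) = al c := by
  have h1 : sq (al c - c) = -al c := by
    apply sq_unique
    · have := al_eq c
      linear_combination this
    · rw [Complex.neg_re]; linarith
  unfold g
  rw [h1, neg_neg]

end Pool.Agent.T6.H50.LC
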