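import Mathlib
import Pool.Agent.T6.H50.LC.Dyn2
import Pool.Agent.T6.H32.LCJ

set_option autoImplicit false

/-! # Existence of the system of parameter maps -/

open Complex Topology Filter Metric Set N62a1eb23

namespace Pool.Agent.T6.H50.LC

open Pool.Agent.H713R2 Pool.Agent.H712R2

/-- An explicit form of the orbit of the base point. -/
theorem y_facts {c : ℝ} (h1 : -15437 / 10000 < c) (h2 : c < -15436 / 10000) :
    ∃ a1 a2 b2 a3 b3 a4 b4 : ℝ,
      (1 + 3 * I : ℂ) ^ 2 + c = a1 + 6 * I ∧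
      (a1 + 6 * I : ℂ) ^ 2 + c = a2 + b2 * I ∧
      (a2 + b2 * I : ℂ) ^ 2 + c = a3 + b3 * I ∧
      (a3 + b3 * I : ℂ) ^ 2 + c = a4 + b4 * I ∧
      a1 < 0 ∧ 0 < a2 ∧ a3 < 0 ∧ |a4| ≤ 5 * 10 ^ 7 ∧ 25 * 10 ^ 7 ≤ b4 ∧ b4 ≤ 26 * 10 ^ 7 := by
  obtain ⟨u, hu⟩ : ∃ u, u = c + 15437 / 10000 := ⟨_, rfl⟩
  have hu0 : 0 < u := by linarith
  have hu1 : u < 1 / 10000 := by linarith
  set a1 : ℝ := c - 8 with ha1
  set a2 : ℝ := a1 ^ 2 - 36 + c with ha2
  set b2 : ℝ := 12 * a1 with hb2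
  set a3 : ℝ := a2 ^ 2 - b2 ^ 2 + c with ha3
  set b3 : ℝ := 2 * a2 * b2 with hb3
  set a4 : ℝ := a3 ^ 2 - b3 ^ 2 + c with ha4
  set b4 : ℝ := 2 * a3 * b3 with hb4
  have k1 : -95437 / 10000 < a1 ∧ a1 < -95436 / 10000 := ⟨by rw [ha1]; linarith, by rw [ha1]; linarith⟩
  have k2 : 5353 / 100 < a2 ∧ a2 < 5355 / 100 := by
    constructor
    · rw [ha2]; nlinarith
    · rw [ha2]; nlinarith
  have k2' : -11453 / 100 < b2 ∧ b2 < -11452 / 100 := by
    constructor
    · rw [hb2]; nlinarith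
    · rw [hb2]; nlinarith
  have k3 : -10255 < a3 ∧ a3 < -10245 := by
    constructor
    · rw [ha3]; nlinarith
    · rw [ha3]; nlinarith
  have k3' : -12268 < b3 ∧ b3 < -12258 := by
    constructor
    · rw [hb3]; nlinarith
    · rw [hb3]; nlinarith
  refine ⟨a1, a2, b2, a3, b3, a4, b4, ?_, ?_, ?_, ?_, by linarith [k1.2], by linarith [k2.1],
    by linarith [k3.2], ?_, ?_, ?_⟩
  · apply Complex.ext
    · simp [ha1, pow_two]; ring
    · simp [ha1, pow_two]; ring
  · apply Complex.ext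
    · simp [ha2, pow_two]; ring
    · simp [hb2, pow_two]; ring
  · apply Complex.ext
    · simp [ha3, pow_two]
    · simp [hb3, pow_two]; ring
  · apply Complex.ext
    · simp [ha4, pow_two]
    · simp [hb4, pow_two]; ring
  · rw [abs_le]
    constructor
    · rw [ha4]; nlinarith
    · rw [ha4]; nlinarith
  · rw [hb4]; nlinarith
  · rw [hb4]; nlinarith

theorem T_V0 {c : ℝ} (h1 : -15437 / 10000 < c) (h2 : c < -15436 / 10000) :
    T true c (V0 c) = 1 + 3 * I := by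
  obtain ⟨a1, a2, b2, a3, b3, a4, b4, e1, e2, e3, e4, p1, p2, p3, -⟩ := y_facts h1 h2
  have hV : V0 c = a4 + b4 * I := by
    unfold V0
    rw [e1, e2, e3, e4]
  have g1 : g c (V0 c) = a3 + b3 * I := by
    unfold g
    rw [hV]
    have : sq ((a4 + b4 * I : ℂ) - c) = -(a3 + b3 * I) := by
      apply sq_unique
      · linear_combination e4
      · simp; linarith
    rw [this, neg_neg]
  have G1 : G c (V0 c) = a2 + b2 * I := by
    unfold G
    rw [g1]
    apply sq_unique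
    · linear_combination e3
    · simp; linarith
  have g2 : g c (a2 + b2 * I) = a1 + 6 * I := by
    unfold g
    have : sq ((a2 + b2 * I : ℂ) - c) = -(a1 + 6 * I) := by
      apply sq_unique
      · linear_combination e2
      · simp; linarith
    rw [this, neg_neg]
  have G2 : G c (a2 + b2 * I) = 1 + 3 * I := by
    unfold G
    rw [g2]
    apply sq_unique
    · linear_combination e1
    · simp
  simp only [T, if_true, G1, G2]

theorem V0_mem {c : ℝ} (h1 : -15437 / 10000 < c) (h2 : c < -15436 / 10000) :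
    V0 c ∈ LO τ₀ (-4 / 5) (4 / 5) := by
  obtain ⟨a1, a2, b2, a3, b3, a4, b4, e1, e2, e3, e4, p1, p2, p3, q1, q2, q3⟩ := y_facts h1 h2
  have hV : V0 c = a4 + b4 * I := by
    unfold V0
    rw [e1, e2, e3, e4]
  show lf τ₀ (-4 / 5) (4 / 5) (V0 c) < 0
  unfold lf τ₀
  rw [hV]
  have hr : ((a4 : ℂ) + b4 * I).re = a4 := by simp
  have hi : ((a4 : ℂ) + b4 * I).im = b4 := by simp
  rw [hr, hi, abs_of_nonneg (by linarith)]
  rw [abs_le] at q1
  nlinarith [q1.1, q1.2]

end Pool.Agent.T6.H50.LC
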