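import Mathlib
import Pool.Agent.T6.H50.LC.Dyn3

set_option autoImplicit false

/-! # Existence of the system of parameter maps -/

open Complex Topology Filter Metric Set N62a1eb23

namespace Pool.Agent.T6.H50.LC

open Pool.Agent.H713R2 Pool.Agent.H712R2

theorem P_three (c : ℂ) : P 2 3 c = (c ^ 2 + c) ^ 2 + c := by
  rw [show (3 : ℕ) = 2 + 1 from rfl, P_succ, show (2 : ℕ) = 1 + 1 from rfl, P_succ,
    show (1 : ℕ) = 0 + 1 from rfl, P_succ, P_zero]
  ring

/-- The function whose zero is `c₀`. -/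
noncomputable def Xi (c : ℂ) : ℂ := P 2 3 c - al c

theorem al_at {c a : ℝ} (hc : c = -(a ^ 2 + a)) (ha : 0 < a) : al c = -(a : ℂ) := by
  have h1 : sq (1 - 4 * (c : ℂ)) = 2 * a + 1 := by
    apply sq_unique
    · rw [hc]; push_cast; ring
    · have : ((2 : ℂ) * a + 1).re = 2 * a + 1 := by simp
      rw [this]; linarith
  unfold al
  rw [h1]
  ring

theorem al_diff {c : ℂ} (h : 1 - 4 * c ∈ slitPlane) : AnalyticAt ℂ al c := by
  have h1 : AnalyticAt ℂ (fun c : ℂ => 1 - 4 * c) c :=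
    analyticAt_const.sub (analyticAt_const.mul analyticAt_id)
  have h2 : AnalyticAt ℂ (fun c : ℂ => sq (1 - 4 * c)) c :=
    (analyticAt_sq h).comp_of_eq h1 rfl
  exact (analyticAt_const.sub h2).div_const

theorem slit_four {c : ℂ} (h : c.re < 0) : 1 - 4 * c ∈ slitPlane := by
  rw [Complex.mem_slitPlane_iff]
  left
  simp
  linarith

theorem Xi_zero {c a : ℝ} (hc : c = -(a ^ 2 + a)) (ha : 0 < a) (ha3 : a ^ 3 + 2 * a ^ 2 = 2) :
    Xi c = 0 := by
  unfold Xi
  rw [al_at hc ha, P_three]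
  have h1 : (a : ℂ) ^ 3 + 2 * (a : ℂ) ^ 2 = 2 := by exact_mod_cast ha3
  have h2 : (c : ℂ) = -((a : ℂ) ^ 2 + a) := by rw [hc]; push_cast; ring
  have h3 : (c : ℂ) ^ 2 + c = a := by
    rw [h2]
    linear_combination (a : ℂ) * h1
  rw [h3, h2]
  ring

theorem Xi_deriv {c a : ℝ} (hc : c = -(a ^ 2 + a)) (ha : 83928 / 100000 < a)
    (ha' : a < 83929 / 100000) (ha3 : a ^ 3 + 2 * a ^ 2 = 2) :
    deriv Xi c ≠ 0 := by
  have hcneg : (c : ℂ).re < 0 := by
    rw [Complex.ofReal_re, hc]; nlinarith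
  have hal := (al_diff (slit_four hcneg)).differentiableAt.hasDerivAt
  set D := deriv al (c : ℂ) with hD
  -- relation
  have hrel : (2 * al c - 1) * D = -1 := by
    have h1 : HasDerivAt (fun z : ℂ => al z ^ 2 + z - al z) (2 * al c * D + 1 - D) c := by
      have := ((hal.pow 2).add (hasDerivAt_id (c : ℂ))).sub hal
      refine this.congr_deriv ?_
      push_cast; ring
    have h2 : (fun z : ℂ => al z ^ 2 + z - al z) = fun _ => 0 := by
      funext z; rw [al_eq]; ring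
    rw [h2] at h1
    have h3 := h1.unique (hasDerivAt_const (c : ℂ) (0 : ℂ))
    linear_combination h3
  have hP : HasDerivAt (fun z : ℂ => P 2 3 z) (2 * (c ^ 2 + c) * (2 * c + 1) + 1) (c : ℂ) := by
    have h1 : (fun z : ℂ => P 2 3 z) = fun z : ℂ => (z ^ 2 + z) ^ 2 + z := by
      funext z; exact P_three z
    rw [h1]
    have h2 : HasDerivAt (fun z : ℂ => z ^ 2 + z) (2 * c + 1) (c : ℂ) := by
      have := ((hasDerivAt_id (c : ℂ)).pow 2).add (hasDerivAt_id (c : ℂ))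
      refine this.congr_deriv ?_
      simp
    have h3 := (h2.pow 2).add (hasDerivAt_id (c : ℂ))
    refine h3.congr_deriv ?_
    push_cast; ring
  have hX : HasDerivAt Xi (2 * (c ^ 2 + c) * (2 * c + 1) + 1 - D) (c : ℂ) := hP.sub hal
  rw [hX.deriv]
  intro h0
  rw [al_at hc (by linarith)] at hrel
  have h4 : (2 * a + 1 : ℂ) * D = 1 := by linear_combination -hrel
  have h5 : D = 2 * ((c : ℂ) ^ 2 + c) * (2 * c + 1) + 1 := by linear_combination -h0
  rw [h5] at h4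
  have h6 : (2 * a + 1) * (2 * (c ^ 2 + c) * (2 * c + 1) + 1) = 1 := by
    exact_mod_cast h4
  have h7 : c ^ 2 + c = a := by
    rw [hc]
    linear_combination a * ha3
  rw [h7, hc] at h6
  nlinarith [mul_pos (by linarith : (0:ℝ) < a) (by linarith : (0:ℝ) < a)]

theorem exists_ksys : ∃ (c₀ δ δ₁ L : ℝ) (m : ℕ) (κ : List Bool → ℂ → ℂ),
    KSys c₀ δ δ₁ L m κ := by
  obtain ⟨a, ha3, ha1, ha2⟩ := exists_a
  obtain ⟨c₀, hc₀⟩ : ∃ c : ℝ, c = -(a ^ 2 + a) := ⟨_, rfl⟩
  have h1 : -15437 / 10000 < c₀ := by rw [hc₀]; nlinarith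
  have h2 : c₀ < -15436 / 10000 := by rw [hc₀]; nlinarith
  have ha0 : 0 < a := by linarith
  have hal0 : al c₀ = -(a : ℂ) := al_at hc₀ ha0
  have hreneg : (c₀ : ℂ).re < 0 := by rw [Complex.ofReal_re]; linarith
  -- local conditions
  have ev1 := exists_ball_good h1 h2
  have ev2 : ∀ᶠ w : ℂ in 𝓝 (c₀ : ℂ), ‖T true w (V0 c₀) - (1 + 3 * I)‖ < 1 / 2 := by
    have hgood := (good_at h1 h2 τ₀_nonneg (LO_subset_LL _ _ _ (V0_mem h1 h2))).1
    have hcont : ContinuousAt (fun w : ℂ => T true w (V0 c₀) - (1 + 3 * I)) (c₀ : ℂ) :=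
      (analyticAt_T true analyticAt_id analyticAt_const rfl rfl hgood).continuousAt.sub
        continuousAt_const
    have hval : T true (c₀ : ℂ) (V0 c₀) - (1 + 3 * I) = 0 := by rw [T_V0 h1 h2, sub_self]
    have h3 := hcont.norm.eventually_lt (continuousAt_const (y := (1 / 2 : ℝ)))
      (by simp only [hval, norm_zero]; norm_num)
    exact h3
  have ev3 : ∀ᶠ w : ℂ in 𝓝 (c₀ : ℂ), w.re < 0 :=
    Complex.continuous_re.continuousAt.eventually_lt continuousAt_const hreneg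
  have ev4 : ∀ᶠ w : ℂ in 𝓝 (c₀ : ℂ), (al w).re < 0 ∧ al w ∈ LO τ₀ (-3 / 2) (7 / 10) := by
    have hcont : ContinuousAt al (c₀ : ℂ) := (al_diff (slit_four hreneg)).continuousAt
    have hre : (al c₀).re < 0 := by rw [hal0]; simp; linarith
    have hmem : al c₀ ∈ LO τ₀ (-3 / 2) (7 / 10) := by
      rw [hal0]
      have := real_mem_LO (τ := τ₀) (x := -a) (by linarith : (-3 / 2 : ℝ) < -a)
        (by linarith : -a < (7 / 10 : ℝ))
      simpa using this
    exact ((Complex.continuous_re.continuousAt.comp hcont).eventually_lt continuousAt_const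
      hre).and (hcont.eventually_mem ((isOpen_LO _ _ _).mem_nhds hmem))
  obtain ⟨δ', hδ', hball⟩ := Metric.eventually_nhds_iff_ball.1 (ev1.and (ev2.and (ev3.and ev4)))
  set δ : ℝ := min δ' (1 / 10000) with hδdef
  have hδ : 0 < δ := lt_min hδ' (by norm_num)
  have hsub : ball (c₀ : ℂ) δ ⊆ ball (c₀ : ℂ) δ' := ball_subset_ball (min_le_left _ _)
  have hLoc : ∀ c ∈ ball (c₀ : ℂ) δ, Loc c := fun c hc => (hball c (hsub hc)).1
  have hre : ∀ c ∈ ball (c₀ : ℂ) δ, c.re < 0 := fun c hc => (hball c (hsub hc)).2.2.1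
  have halc : ∀ c ∈ ball (c₀ : ℂ) δ, (al c).re < 0 ∧ al c ∈ LO τ₀ (-3 / 2) (7 / 10) :=
    fun c hc => (hball c (hsub hc)).2.2.2
  -- parameter lemma
  have hXid : DifferentiableOn ℂ Xi (ball (c₀ : ℂ) δ) := by
    intro c hc
    have hP : DifferentiableAt ℂ (fun z : ℂ => P 2 3 z) c := by
      have h1 : (fun z : ℂ => P 2 3 z) = fun z : ℂ => (z ^ 2 + z) ^ 2 + z := by
        funext z; exact P_three z
      rw [h1]; fun_prop
    exact (hP.sub (al_diff (slit_four (hre c hc))).differentiableAt).differentiableWithinAt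
  obtain ⟨δ₁, ε₀, L, hδ₁, hδ₁δ, hε₀, hL, hpar⟩ :=
    Pool.Agent.T6.H32.LC.param_lemma hδ hXid (Xi_zero hc₀ ha0 ha3) (Xi_deriv hc₀ ha1 ha2 ha3)
  -- contraction
  obtain ⟨C, lam, hC, hlam0, hlam1, hcontr⟩ := gi_contr
  have hbound : ∀ c ∈ ball (c₀ : ℂ) δ, ∀ m : ℕ, ∀ w ∈ LL τ₀ (-3 / 2) (7 / 10),
      ‖(g c)^[m + 1] w - al c‖ ≤ 2 * C * lam ^ m := by
    intro c hc m w hw
    have hl := hLoc c hc
    have h3 := LO_subset_LL _ _ _ (hl.2 w hw).2
    have hga := g_al (halc c hc).1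
    have h4 : al c ∈ LL τ₀ (-14995 / 10000) (1 / 10) := by
      have := (hl.2 (al c) (LO_subset_LL _ _ _ (halc c hc).2)).2
      rw [hga] at this
      exact LO_subset_LL _ _ _ this
    have h5 : (g c)^[m] (al c) = al c := Function.iterate_fixed hga m
    have h6 := hcontr c hl m _ h3
    have h7 := hcontr c hl m _ h4
    rw [h5] at h7
    rw [Function.iterate_succ_apply]
    have h8 : (g c)^[m] (g c w) - al c =
        ((g c)^[m] (g c w) - (g c)^[m] 0) - (al c - (g c)^[m] 0) := by ring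
    rw [h8]
    have := norm_sub_le ((g c)^[m] (g c w) - (g c)^[m] 0) (al c - (g c)^[m] 0)
    linarith
  obtain ⟨m₀, hm₀⟩ : ∃ m₀ : ℕ, 2 * C * lam ^ (2 * m₀) ≤ ε₀ := by
    have h3 : Tendsto (fun k : ℕ => 2 * C * lam ^ (2 * k)) atTop (𝓝 (2 * C * 0)) := by
      apply Tendsto.const_mul
      have h4 := (tendsto_pow_atTop_nhds_zero_of_lt_one hlam0.le hlam1)
      exact h4.comp (tendsto_id.const_mul_atTop' (by norm_num))
    rw [mul_zero] at h3
    have h5 := h3.eventually (ge_mem_nhds hε₀)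
    exact h5.exists
  set m : ℕ := 2 * m₀ + 1 with hm
  have hwide : ∀ I : List Bool, ∀ c ∈ ball (c₀ : ℂ) δ, ∀ v ∈ UU I,
      Tw I c v ∈ LL τ₀ (-3 / 2) (7 / 10) := fun I c hc v hv =>
    lens_mono τ₀_nonneg (by norm_num) (by norm_num) (by norm_num) (Tw_mem_UU (hLoc c hc) hv)
  have hκ : ∀ I : List Bool, ∃ κ : ℂ → ℂ, DifferentiableOn ℂ κ (UU I) ∧
        (∀ v ∈ UU I, κ v ∈ closedBall (c₀ : ℂ) δ₁ ∧
          Xi (κ v) = (g (κ v))^[m] (Tw I (κ v) v) - al (κ v)) ∧
        (∀ v ∈ UU I, ∀ c ∈ closedBall (c₀ : ℂ) δ₁,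
          ‖c - κ v‖ ≤ L * ‖Xi c - ((g c)^[m] (Tw I c v) - al c)‖) := by
    intro I
    refine hpar (UU I) (fun c v => (g c)^[m] (Tw I c v) - al c) (isOpen_UU I) ?_ ?_
    · intro c hc v hv
      have h3 := analyticAt_Tw (hLoc c hc) I (UU_mem hv)
      have h4 : AnalyticAt ℂ (fun q : ℂ × ℂ => (g q.1)^[m] (Tw I q.1 q.2)) (c, v) :=
        analyticAt_gi (hLoc c hc) m analyticAt_fst h3 rfl rfl (hwide I c hc v hv)
      have h5 : AnalyticAt ℂ (fun q : ℂ × ℂ => al q.1) (c, v) :=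
        (al_diff (slit_four (hre c hc))).comp_of_eq analyticAt_fst rfl
      exact (h4.sub h5).differentiableAt
    · intro c hc v hv
      exact (hbound c hc (2 * m₀) _ (hwide I c hc v hv)).trans hm₀
  choose κ hκ1 hκ2 hκ3 using hκ
  refine ⟨c₀, δ, δ₁, L, m, κ, ?_⟩
  exact {
    hc₀ := ⟨h1, h2⟩
    hδ := ⟨hδ, min_le_right _ _⟩
    hδ₁ := ⟨hδ₁, hδ₁δ⟩
    hm := ⟨m₀, rfl⟩
    hL := hL
    good := fun c hc => (hLoc c hc).1
    gmap := fun c hc => (hLoc c hc).2
    base := fun c hc => (hball c (hsub hc)).2.1.le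
    diff := hκ1
    mem := fun I v hv => (hκ2 I v hv).1
    eq := fun I v hv => by
      have := (hκ2 I v hv).2
      unfold Xi at this
      linear_combination this
    est := fun I v hv c hc => by
      have := hκ3 I v hv c hc
      have h3 : Xi c - ((g c)^[m] (Tw I c v) - al c) = P 2 3 c - (g c)^[m] (Tw I c v) := by
        unfold Xi; ring
      rw [h3] at this
      exact this }

end Pool.Agent.T6.H50.LC
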