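import Mathlib
import Pool.Agent.T6.H50.LC.Dyn4
import Pool.Agent.T6.H57.LCSysClose
import Pool.Agent.T6.H11.LCTree
import Pool.Agent.T6.H11.LCSysProps
import Pool.Agent.T6.H48.LCfinal2
import Pool.Agent.T6.H48.LCgap

set_option autoImplicit false

/-! # Assembly -/

open Complex Topology Filter Metric Set N62a1eb23

namespace Pool.Agent.T6.H50.LC

open Pool.Agent.H713R2 Pool.Agent.H712R2

theorem main {β : ℂ → ℂ} (hβ : IsBeta 2 β) :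
    ∃ c > 0, ∀ K : ℝ, ∃ J : ℕ, ∀ ε : ℝ, 0 < ε → ∀ᶠ n : ℕ in atTop, Even n →
      (∃ m : ℕ, |(m : ℝ) - 2 ^ n| ≤ J ∧ c ≤ m * ‖tc β (m + 1)‖) ∨
      (∃ m : ℕ, |(m : ℝ) - 2 ^ n| ≤ ε * 2 ^ n ∧ K ≤ m * ‖tc β (m + 1)‖) := by
  obtain ⟨c₀, δ, δ₁, L, m, κ, h⟩ := exists_ksys
  obtain ⟨vv, -, -, hvmem, k1, k2, k3, k4, k5, k6, k7⟩ := Pool.Agent.T6.H11.LC.sys_props h
  obtain ⟨x, A, a, hh, C, hA, ha, hh0, hx, t1, t2, t3, t4⟩ :=
    Pool.Agent.T6.H11.LC.tree_in_disc hβ k1 k2 k3 k4 k5 k6 k7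
  obtain ⟨p, q, gap, hgap, g1, g2, g3⟩ := Pool.Agent.T6.H48.LC.real_gap h
  refine Pool.Agent.T6.H48.LC.final2 hβ x (fun I => (κ I 0).re) hA ha hh0 hgap
    (fun I hI => ⟨(hx I hI).1, (hx I hI).2.1⟩) t1 t2 t3 t4 ?_ (fun I hI => (g1 I hI).2) g2 g3
  intro ε hε
  filter_upwards [Pool.Agent.T6.H57.LC.sys_close h hε, eventually_ge_atTop 1] with l hl hl1 I hI
  have hI0 : I ≠ [] := by
    rintro rfl
    simp at hI
    omega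
  rw [(hx I hI0).2.2]
  have him : (((κ I 0).re : ℝ) : ℂ) = κ I 0 := by
    apply Complex.ext
    · simp
    · simp [(g1 I hI0).1]
  rw [him]
  exact hl I hI _ (hvmem _)

end Pool.Agent.T6.H50.LC
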